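import Mathlib
set_option autoImplicit false
namespace Pool.Agent.H.BiH
open Set Filter Topology

variable {V : Type*} [NormedAddCommGroup V] [NormedSpace ℝ V]

theorem glue {f : V → V} {K : NNReal} (hf : LipschitzWith K f) (x : V)
    (h1 : ∀ r : ℝ, ∃ α : ℝ → V, α 0 = x ∧
      ∀ t ∈ Ioo (-(|r| + 1)) (|r| + 1), HasDerivAt α (f (α t)) t) :
    ∃ α : ℝ → V, α 0 = x ∧ ∀ t, HasDerivAt α (f (α t)) t := by
  choose α h1 h2 using h1
  have h3 : ∀ r s, |r| ≤ |s| → EqOn (α r) (α s) (Ioo (-(|r| + 1)) (|r| + 1)) := fun r s h =>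
    ODE_solution_unique_of_mem_Ioo (v := fun _ => f) (s := fun _ => univ) (t₀ := 0)
      (fun _ _ => hf.lipschitzOnWith) ⟨by linarith [abs_nonneg r], by positivity⟩
      (fun t ht => ⟨h2 r t ht, trivial⟩)
      (fun t ht => ⟨h2 s t (Ioo_subset_Ioo (by linarith) (by linarith) ht), trivial⟩)
      (by rw [h1, h1])
  have h4 : ∀ t : ℝ, t ∈ Ioo (-(|t| + 1)) (|t| + 1) := fun t =>
    ⟨by linarith [neg_abs_le t], by linarith [le_abs_self t]⟩
  refine ⟨fun t => α t t, h1 0, fun t => (h2 t t (h4 t)).congr_of_eventuallyEq ?_⟩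
  filter_upwards [Ioo_mem_nhds (h4 t).1 (h4 t).2] with s hs
  rcases le_total |s| |t| with h | h
  exacts [h3 s t h (h4 s), (h3 t s h hs).symm]

theorem dfst {W : Type*} [NormedAddCommGroup W] [NormedSpace ℝ W] {α : ℝ → V × W} {p : V × W}
    {t : ℝ} (h : HasDerivAt α p t) : HasDerivAt (fun s => (α s).1) p.1 t :=
  (ContinuousLinearMap.fst ℝ V W).hasFDerivAt.comp_hasDerivAt t h

theorem dsnd {W : Type*} [NormedAddCommGroup W] [NormedSpace ℝ W] {α : ℝ → V × W} {p : V × W}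
    {t : ℝ} (h : HasDerivAt α p t) : HasDerivAt (fun s => (α s).2) p.2 t :=
  (ContinuousLinearMap.snd ℝ V W).hasFDerivAt.comp_hasDerivAt t h

/-- first order field of a second order equation -/
def fld (F : V → V) (p : V × V) : V × V := (p.2, F p.1)

omit [NormedSpace ℝ V] in
theorem fld_lip {F : V → V} {K : NNReal} (hF : LipschitzWith K F) :
    LipschitzWith (max 1 (K * 1)) (fld F) :=
  LipschitzWith.prod_snd.prodMk (hF.comp LipschitzWith.prod_fst)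

theorem second_order [CompleteSpace V] {F : V → V} {K L : NNReal} (hF : LipschitzWith K F)
    (hb : ∀ x, ‖F x‖ ≤ L) (p : V × V) :
    ∃ α : ℝ → V × V, α 0 = p ∧ ∀ t, HasDerivAt α (fld F (α t)) t := by
  refine glue (fld_lip hF) p fun r => ?_
  have h0 : 0 < |r| + 1 := by positivity
  set a : ℝ := (L + 1) * (|r| + 1) with ha
  have ha0 : 0 < a := by positivity
  set Λ : ℝ := ‖p.2‖ + a with hΛ
  have hΛ0 : 0 < Λ := by positivity
  let g : V × V → V × V := fun y => (Λ⁻¹ • y.2, F (Λ • y.1))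
  have hg : LipschitzWith (max (‖Λ⁻¹‖₊ * 1) (K * (‖Λ‖₊ * 1))) g :=
    ((lipschitzWith_smul Λ⁻¹).comp LipschitzWith.prod_snd).prodMk
      (hF.comp ((lipschitzWith_smul Λ).comp LipschitzWith.prod_fst))
  obtain ⟨β, h1, h2⟩ := (IsPicardLindelof.of_time_independent (f := g) (tmin := -(|r| + 1))
      (tmax := |r| + 1) (t₀ := ⟨0, by linarith, h0.le⟩) (x₀ := (Λ⁻¹ • p.1, p.2))
      (a := ⟨a, ha0.le⟩) (r := 0) (L := L + 1)
      (fun y hy => by
        have h3 : ‖y.2 - p.2‖ ≤ a := by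
          have := norm_snd_le (y - (Λ⁻¹ • p.1, p.2))
          rw [Metric.mem_closedBall, dist_eq_norm] at hy
          exact this.trans hy
        have h4 : ‖y.2‖ ≤ Λ := by
          have := norm_add_le (y.2 - p.2) p.2
          rw [sub_add_cancel] at this
          linarith
        have h5 : ‖Λ⁻¹ • y.2‖ ≤ 1 := by
          rw [norm_smul, norm_inv, Real.norm_of_nonneg hΛ0.le, inv_mul_le_iff₀ hΛ0]
          linarith
        have h6 := hb (Λ • y.1)
        have h7 : (0 : ℝ) ≤ L := L.2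
        simp only [g, Prod.norm_mk, NNReal.coe_add, NNReal.coe_one]
        exact max_le (by linarith) (by linarith)) hg.lipschitzOnWith
      (by simp [ha]; rfl)).exists_eq_forall_mem_Icc_hasDerivWithinAt₀
  refine ⟨fun t => (Λ • (β t).1, (β t).2), ?_, fun t ht => ?_⟩
  · have h1' : β 0 = (Λ⁻¹ • p.1, p.2) := h1
    simp [h1', smul_smul, hΛ0.ne']
  · have h3 := (h2 t (Ioo_subset_Icc_self ht)).hasDerivAt (Icc_mem_nhds ht.1 ht.2)
    have h4 := ((dfst h3).const_smul Λ).prodMk (dsnd h3)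
    simpa [g, fld, smul_smul, hΛ0.ne'] using h4

theorem uniq {f : V → V} {K : NNReal} (hf : LipschitzWith K f) {α β : ℝ → V}
    (hα : ∀ t, HasDerivAt α (f (α t)) t) (hβ : ∀ t, HasDerivAt β (f (β t)) t) (h : α 0 = β 0) :
    α = β :=
  ODE_solution_unique_univ (v := fun _ => f) (s := fun _ => univ) (t₀ := 0)
    (fun _ => hf.lipschitzOnWith) (fun t => ⟨hα t, trivial⟩) (fun t => ⟨hβ t, trivial⟩) h

theorem gron {f : V → V} {K : NNReal} (hf : LipschitzWith K f) {α β : ℝ → V}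
    (hα : ∀ t, HasDerivAt α (f (α t)) t) (hβ : ∀ t, HasDerivAt β (f (β t)) t) {t T : ℝ}
    (h0 : 0 ≤ t) (hT : t ≤ T) : dist (α t) (β t) ≤ dist (α 0) (β 0) * Real.exp (K * T) := by
  have := dist_le_of_trajectories_ODE (v := fun _ => f) (a := 0) (b := T) (fun _ => hf)
    (fun s _ => (hα s).continuousAt.continuousWithinAt) (fun s _ => (hα s).hasDerivWithinAt)
    (fun s _ => (hβ s).continuousAt.continuousWithinAt) (fun s _ => (hβ s).hasDerivWithinAt)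
    le_rfl t ⟨h0, hT⟩
  refine this.trans ?_
  have : (0 : ℝ) ≤ K := K.2
  gcongr
  linarith

theorem mono {f f' : ℝ → ℝ} {a b : ℝ} (hab : a ≤ b) (h : ∀ t ∈ Icc a b, HasDerivAt f (f' t) t)
    (h0 : ∀ t ∈ Icc a b, 0 ≤ f' t) : f a ≤ f b :=
  monotoneOn_of_deriv_nonneg (convex_Icc a b) (fun t ht => (h t ht).continuousAt.continuousWithinAt)
    (fun t ht => (h t (interior_subset ht)).differentiableAt.differentiableWithinAt)
    (fun t ht => (h t (interior_subset ht)).deriv ▸ h0 t (interior_subset ht))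
    (left_mem_Icc.2 hab) (right_mem_Icc.2 hab) hab

theorem boot {σ : ℝ → ℝ} (hc : Continuous σ) (h0 : 0 ≤ σ 0)
    (h : ∀ τ, 0 ≤ τ → (∀ s ∈ Icc 0 τ, 0 ≤ σ s) → σ τ = 0 → ∃ d, 0 < d ∧ HasDerivAt σ d τ) :
    ∀ t, 0 ≤ t → 0 ≤ σ t := by
  by_contra hn
  push Not at hn
  let B : Set ℝ := {t | 0 ≤ t ∧ σ t < 0}
  have hB : B.Nonempty := hn
  have hbd : BddBelow B := ⟨0, fun t ht => ht.1⟩
  have hτ0 : 0 ≤ sInf B := le_csInf hB fun t ht => ht.1
  have hlt : ∀ s, 0 ≤ s → s < sInf B → 0 ≤ σ s := fun s h1 h2 => by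
    by_contra h3
    exact notMem_of_lt_csInf h2 hbd ⟨h1, not_le.1 h3⟩
  have hcl : sInf B ∈ closure B := csInf_mem_closure hB hbd
  have hle : σ (sInf B) ≤ 0 :=
    closure_minimal (fun t (ht : t ∈ B) => (ht.2.le : t ∈ {t | σ t ≤ 0}))
      (isClosed_le hc continuous_const) hcl
  have hge : 0 ≤ σ (sInf B) := by
    rcases hτ0.eq_or_lt with e | e
    · rw [← e]; exact h0
    · refine ge_of_tendsto (hc.continuousAt.tendsto.mono_left (nhdsWithin_le_nhds (s := Iio (sInf B)))) ?_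
      filter_upwards [Ioo_mem_nhdsLT e] with s hs
      exact hlt s hs.1.le hs.2
  have hz := le_antisymm hle hge
  obtain ⟨d, hd, hD⟩ := h _ hτ0 (fun s hs => by
    rcases hs.2.eq_or_lt with e | e
    · rw [e]; exact hge
    · exact hlt s hs.1 e) hz
  have h1 : ∀ᶠ s in 𝓝[>] (sInf B), 0 < slope σ (sInf B) s :=
    ((hasDerivAt_iff_tendsto_slope.1 hD).mono_left (nhdsWithin_mono _ fun s hs =>
      ne_of_gt hs)).eventually (lt_mem_nhds hd)
  have h2 : ∀ᶠ s in 𝓝 (sInf B), s ∉ B := by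
    rw [← nhdsLE_sup_nhdsGT, eventually_sup]
    constructor
    · filter_upwards [self_mem_nhdsWithin] with s hs hsB
      rcases (mem_Iic.1 hs).eq_or_lt with e | e
      · have := hsB.2; rw [e] at this; linarith
      · exact notMem_of_lt_csInf e hbd hsB
    · filter_upwards [h1, self_mem_nhdsWithin] with s hs hs' hsB
      rw [slope_def_field, hz, sub_zero] at hs
      have h3 : 0 < s - sInf B := sub_pos.2 hs'
      have := (div_pos_iff_of_pos_right h3).1 hs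
      linarith [hsB.2]
  exact (mem_closure_iff_frequently.1 hcl) h2

theorem tail {v a : ℝ → V} {C T t : ℝ} (hv : ∀ s, HasDerivAt v (a s) s)
    (ha : ∀ s, 0 < s → ‖a s‖ ≤ C / s ^ 2) (hT : 0 < T) (ht : T ≤ t) :
    ‖v t - v T‖ ≤ C / T - C / t := by
  refine image_norm_le_of_norm_deriv_right_le_deriv_boundary' (f := fun s => v s - v T) (f' := a)
    (a := T) (b := t) (B := fun s => C / T - C / s) (B' := fun s => C / s ^ 2)
    (fun s _ => ((hv s).sub_const _).continuousAt.continuousWithinAt)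
    (fun s _ => ((hv s).sub_const _).hasDerivWithinAt) (by simp) ?_ ?_
    (fun s hs => ha s (lt_of_lt_of_le hT hs.1)) ⟨ht, le_rfl⟩
  · exact continuousOn_const.sub (continuousOn_const.div continuousOn_id
      fun s hs => (lt_of_lt_of_le hT hs.1).ne')
  · intro s hs
    have hs0 : s ≠ 0 := (lt_of_lt_of_le hT hs.1).ne'
    have := (((hasDerivAt_inv hs0).const_mul C).const_sub (C / T)).hasDerivWithinAt (s := Ici s)
    simpa [div_eq_mul_inv] using this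

theorem lim [CompleteSpace V] {x v a : ℝ → V} {C : ℝ} (hC : 0 ≤ C) (hx : ∀ s, HasDerivAt x (v s) s)
    (hv : ∀ s, HasDerivAt v (a s) s) (ha : ∀ s, 0 < s → ‖a s‖ ≤ C / s ^ 2) :
    ∃ L, Tendsto v atTop (𝓝 L) ∧ Tendsto (fun t : ℝ => t⁻¹ • x t) atTop (𝓝 L) := by
  have hm : Tendsto (fun t : ℝ => max t 1) atTop atTop :=
    tendsto_atTop_mono (fun t => le_max_left t 1) tendsto_id
  have hc : CauchySeq fun t : ℝ => v (max t 1) := by
    refine cauchySeq_of_le_tendsto_0' (fun t => C / max t 1) (fun n m h => ?_)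
      (tendsto_const_nhds.div_atTop hm)
    have h1 : (0 : ℝ) < max n 1 := lt_max_of_lt_right one_pos
    have h2 : (0 : ℝ) < max m 1 := lt_max_of_lt_right one_pos
    rw [dist_comm, dist_eq_norm]
    have := tail hv ha h1 (max_le_max_right 1 h)
    have h3 : 0 ≤ C / max m 1 := by positivity
    linarith
  obtain ⟨L, hL⟩ := cauchySeq_tendsto_of_complete hc
  have hL' : Tendsto v atTop (𝓝 L) := hL.congr' (by
    filter_upwards [eventually_ge_atTop 1] with t ht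
    rw [max_eq_left ht])
  refine ⟨L, hL', ?_⟩
  have h1 : ∀ T, 0 < T → ‖v T - L‖ ≤ C / T := fun T hT => by
    rw [norm_sub_rev]
    refine le_of_tendsto (hL'.sub_const (v T)).norm ?_
    filter_upwards [eventually_ge_atTop T] with t ht
    have := tail hv ha hT ht
    have h3 : 0 ≤ C / t := div_nonneg hC (by linarith)
    linarith
  have h2 : ∀ t, 1 ≤ t → ‖x t - t • L‖ ≤ ‖x 1 - L‖ + C * Real.log t := fun t ht => by
    have hd : ∀ s, HasDerivAt (fun s => x s - s • L) (v s - L) s := fun s => by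
      simpa using (hx s).fun_sub ((hasDerivAt_id' s).smul_const L)
    refine image_norm_le_of_norm_deriv_right_le_deriv_boundary' (f := fun s => x s - s • L)
      (f' := fun s => v s - L) (a := 1) (b := t) (B := fun s => ‖x 1 - L‖ + C * Real.log s)
      (B' := fun s => C / s) (fun s _ => (hd s).continuousAt.continuousWithinAt)
      (fun s _ => (hd s).hasDerivWithinAt) (by simp) ?_ ?_
      (fun s hs => h1 s (by linarith [hs.1])) ⟨ht, le_rfl⟩
    · exact continuousOn_const.add (continuousOn_const.mul (continuousOn_id.log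
        fun s hs => by have := hs.1; simp only [id]; linarith))
    · intro s hs
      have hs0 : s ≠ 0 := by have := hs.1; linarith
      have := (((Real.hasDerivAt_log hs0).const_mul C).const_add ‖x 1 - L‖).hasDerivWithinAt
        (s := Ici s)
      simpa [div_eq_mul_inv] using this
  rw [tendsto_iff_norm_sub_tendsto_zero]
  have h3 : Tendsto (fun t : ℝ => ‖x 1 - L‖ / t + C * (Real.log t / t)) atTop (𝓝 (0 + C * 0)) :=
    (tendsto_const_nhds.div_atTop tendsto_id).add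
      (Real.isLittleO_log_id_atTop.tendsto_div_nhds_zero.const_mul C)
  rw [mul_zero, add_zero] at h3
  refine squeeze_zero' (Eventually.of_forall fun _ => norm_nonneg _) ?_ h3
  filter_upwards [eventually_ge_atTop 1] with t ht
  have ht0 : 0 < t := by linarith
  have e : t⁻¹ • x t - L = t⁻¹ • (x t - t • L) := by
    rw [smul_sub, smul_smul, inv_mul_cancel₀ ht0.ne', one_smul]
  rw [e, norm_smul, norm_inv, Real.norm_of_nonneg ht0.le]
  calc _ ≤ t⁻¹ * (‖x 1 - L‖ + C * Real.log t) := by gcongr; exact h2 t ht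
    _ = _ := by ring

noncomputable def kf (d : V) : V := (1 / ‖d‖ ^ 3) • d

theorem kf_lip_aux {ρ : ℝ} (hρ : 0 < ρ) {a b : V} (hb : ρ ≤ ‖b‖) (hab : ‖b‖ ≤ ‖a‖) :
    ‖kf a - kf b‖ ≤ 4 / ρ ^ 3 * ‖a - b‖ := by
  have hb0 : 0 < ‖b‖ := lt_of_lt_of_le hρ hb
  have ha0 : 0 < ‖a‖ := lt_of_lt_of_le hb0 hab
  have ha : ρ ≤ ‖a‖ := hb.trans hab
  have e : kf a - kf b = (1 / ‖a‖ ^ 3) • (a - b) - (1 / ‖b‖ ^ 3 - 1 / ‖a‖ ^ 3) • b := by
    unfold kf; rw [smul_sub, sub_smul]; abel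
  have hd : ‖a‖ - ‖b‖ ≤ ‖a - b‖ := norm_sub_norm_le a b
  have hn : 0 ≤ ‖a - b‖ := norm_nonneg _
  have h1 : 1 / ‖a‖ ^ 3 ≤ 1 / ρ ^ 3 := by gcongr
  have h0 : 0 ≤ 1 / ‖b‖ ^ 3 - 1 / ‖a‖ ^ 3 := by
    have : 1 / ‖a‖ ^ 3 ≤ 1 / ‖b‖ ^ 3 := by gcongr
    linarith
  have h2 : (1 / ‖b‖ ^ 3 - 1 / ‖a‖ ^ 3) * ‖b‖ ≤ 3 / ρ ^ 3 * ‖a - b‖ := by
    have e2 : (1 / ‖b‖ ^ 3 - 1 / ‖a‖ ^ 3) * ‖b‖ =
        (‖a‖ - ‖b‖) * ((‖a‖ ^ 2 + ‖a‖ * ‖b‖ + ‖b‖ ^ 2) / (‖a‖ ^ 3 * ‖b‖ ^ 2)) := by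
      field_simp; ring
    have h3 : (‖a‖ ^ 2 + ‖a‖ * ‖b‖ + ‖b‖ ^ 2) / (‖a‖ ^ 3 * ‖b‖ ^ 2) ≤ 3 / ρ ^ 3 := by
      have h4 : ‖a‖ ^ 2 + ‖a‖ * ‖b‖ + ‖b‖ ^ 2 ≤ 3 * ‖a‖ ^ 2 := by nlinarith
      have h5 : ρ ^ 3 ≤ ‖a‖ * ‖b‖ ^ 2 := by
        have : ρ ^ 3 = ρ * ρ ^ 2 := by ring
        rw [this]; gcongr
      calc _ ≤ 3 * ‖a‖ ^ 2 / (‖a‖ ^ 3 * ‖b‖ ^ 2) := by gcongr
        _ = 3 / (‖a‖ * ‖b‖ ^ 2) := by field_simp
        _ ≤ 3 / ρ ^ 3 := by gcongr
    rw [e2, mul_comm]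
    exact mul_le_mul h3 hd (by linarith) (by positivity)
  rw [e]
  refine (norm_sub_le _ _).trans ?_
  rw [norm_smul, norm_smul, Real.norm_of_nonneg h0, Real.norm_of_nonneg (by positivity)]
  have h6 : 1 / ‖a‖ ^ 3 * ‖a - b‖ ≤ 1 / ρ ^ 3 * ‖a - b‖ := by gcongr
  have e3 : 4 / ρ ^ 3 * ‖a - b‖ = 1 / ρ ^ 3 * ‖a - b‖ + 3 / ρ ^ 3 * ‖a - b‖ := by ring
  linarith

theorem kf_lip {ρ : ℝ} (hρ : 0 < ρ) {a b : V} (ha : ρ ≤ ‖a‖) (hb : ρ ≤ ‖b‖) :
    ‖kf a - kf b‖ ≤ 4 / ρ ^ 3 * ‖a - b‖ := by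
  rcases le_total ‖b‖ ‖a‖ with h | h
  · exact kf_lip_aux hρ hb h
  · rw [norm_sub_rev, norm_sub_rev a b]; exact kf_lip_aux hρ ha h

/-- N-body acceleration field -/
noncomputable def NF {N : ℕ} (m : Fin N → ℝ) (q : Fin N → V) : Fin N → V :=
  fun i => ∑ j ∈ Finset.univ.erase i, (m j / ‖q j - q i‖ ^ 3) • (q j - q i)

theorem NF_lip {N : ℕ} (m : Fin N → ℝ) {ρ : ℝ} (hρ : 0 < ρ) : ∃ K : NNReal,
    LipschitzOnWith K (NF m : (Fin N → V) → _) {q | ∀ i j, j ≠ i → ρ ≤ ‖q j - q i‖} := by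
  refine ⟨⟨∑ j, |m j| * (8 / ρ ^ 3), by positivity⟩, LipschitzOnWith.of_dist_le_mul
    fun q hq r hr => ?_⟩
  rw [dist_eq_norm, dist_eq_norm]
  refine (pi_norm_le_iff_of_nonneg (by positivity)).2 fun i => ?_
  simp only [NF, Pi.sub_apply]
  rw [← Finset.sum_sub_distrib]
  refine (norm_sum_le _ _).trans ?_
  have : ∀ j ∈ Finset.univ.erase i, ‖(m j / ‖q j - q i‖ ^ 3) • (q j - q i) -
      (m j / ‖r j - r i‖ ^ 3) • (r j - r i)‖ ≤ |m j| * (8 / ρ ^ 3) * ‖q - r‖ := by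
    intro j hj
    have hji := (Finset.mem_erase.1 hj).1
    have e0 : (m j / ‖q j - q i‖ ^ 3) • (q j - q i) - (m j / ‖r j - r i‖ ^ 3) • (r j - r i)
        = m j • (kf (q j - q i) - kf (r j - r i)) := by
      simp only [kf, smul_sub (m j), smul_smul, mul_one_div]
    rw [e0, norm_smul, Real.norm_eq_abs, mul_assoc]
    refine mul_le_mul_of_nonneg_left ?_ (abs_nonneg _)
    refine (kf_lip hρ (hq i j hji) (hr i j hji)).trans ?_
    have e : q j - q i - (r j - r i) = (q - r) j - (q - r) i := by simp only [Pi.sub_apply]; abel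
    have h : ‖q j - q i - (r j - r i)‖ ≤ 2 * ‖q - r‖ := by
      rw [e]
      have := norm_sub_le ((q - r) j) ((q - r) i)
      have h1 := norm_le_pi_norm (q - r) j
      have h2 := norm_le_pi_norm (q - r) i
      linarith
    calc _ ≤ 4 / ρ ^ 3 * (2 * ‖q - r‖) := by gcongr
      _ = _ := by ring
  refine (Finset.sum_le_sum this).trans ?_
  rw [← Finset.sum_mul]
  refine mul_le_mul_of_nonneg_right ?_ (norm_nonneg _)
  exact Finset.sum_le_sum_of_subset_of_nonneg (Finset.erase_subset _ _) fun _ _ _ => by positivity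

theorem sep_ev {N : ℕ} {γ : ℝ → Fin N → V} (hc : Continuous γ)
    (h : ∀ t i j, i ≠ j → γ t i ≠ γ t j) (T : ℝ) :
    ∀ᶠ ρ in 𝓝[>] (0 : ℝ), ∀ i j, j ≠ i → ∀ t ∈ Icc (-T) T, ρ ≤ ‖γ t j - γ t i‖ := by
  refine eventually_all.2 fun i => eventually_all.2 fun j => eventually_all.2 fun hji => ?_
  obtain ⟨a, ha, h2⟩ := (isCompact_Icc (a := -T) (b := T)).exists_forall_le' (a := (0 : ℝ))
    (f := fun t => ‖γ t j - γ t i‖)
    (((continuous_apply j).comp hc).sub ((continuous_apply i).comp hc)).norm.continuousOn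
    (fun t _ => norm_pos_iff.2 (sub_ne_zero.2 (h t j i hji)))
  filter_upwards [Ioo_mem_nhdsGT ha] with ρ hρ t ht
  exact hρ.2.le.trans (h2 t ht)

theorem nbody_uniq {N : ℕ} (m : Fin N → ℝ) {γ γ' δ δ' : ℝ → Fin N → V}
    (h1 : ∀ t i j, i ≠ j → γ t i ≠ γ t j) (h2 : ∀ t, HasDerivAt γ (γ' t) t)
    (h3 : ∀ t, HasDerivAt γ' (NF m (γ t)) t)
    (k1 : ∀ t i j, i ≠ j → δ t i ≠ δ t j) (k2 : ∀ t, HasDerivAt δ (δ' t) t)
    (k3 : ∀ t, HasDerivAt δ' (NF m (δ t)) t) (e : (γ 0, γ' 0) = (δ 0, δ' 0)) : γ = δ := by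
  funext t
  have cγ : Continuous γ := continuous_iff_continuousAt.2 fun s => (h2 s).continuousAt
  have cδ : Continuous δ := continuous_iff_continuousAt.2 fun s => (k2 s).continuousAt
  obtain ⟨ρ, ⟨a1, a2⟩, hρ⟩ := (((sep_ev cγ h1 (|t| + 1)).and (sep_ev cδ k1 (|t| + 1))).and
    self_mem_nhdsWithin).exists
  obtain ⟨K, hK⟩ := NF_lip (V := V) m (mem_Ioi.1 hρ)
  have hL : LipschitzOnWith (max 1 (K * 1)) (fld (NF m : (Fin N → V) → _))
      {p | ∀ i j, j ≠ i → ρ ≤ ‖p.1 j - p.1 i‖} :=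
    LipschitzWith.prod_snd.lipschitzOnWith.prodMk
      (hK.comp LipschitzWith.prod_fst.lipschitzOnWith fun p hp => hp)
  have := ODE_solution_unique_of_mem_Ioo (v := fun _ => fld (NF m : (Fin N → V) → _))
    (s := fun _ => {p | ∀ i j, j ≠ i → ρ ≤ ‖p.1 j - p.1 i‖}) (t₀ := 0)
    (a := -(|t| + 1)) (b := |t| + 1) (f := fun s => (γ s, γ' s)) (g := fun s => (δ s, δ' s))
    (fun _ _ => hL) ⟨by linarith [abs_nonneg t], by positivity⟩
    (fun s hs => ⟨(h2 s).prodMk (h3 s), fun i j hj => a1 i j hj s (Ioo_subset_Icc_self hs)⟩)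
    (fun s hs => ⟨(k2 s).prodMk (k3 s), fun i j hj => a2 i j hj s (Ioo_subset_Icc_self hs)⟩) e
  exact congrArg Prod.fst (this ⟨by linarith [neg_abs_le t], by linarith [le_abs_self t]⟩)

end Pool.Agent.H.BiH
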