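import Mathlib
import Pool.Agent.H.MP_125cfc_an.Ode
set_option autoImplicit false
namespace Pool.Agent.H.BiH
open Set Filter Topology

noncomputable def pz (x : ℝ × ℝ) : ℂ := ⟨max x.1 1, x.2⟩

noncomputable def RF (x : ℝ × ℝ) : ℝ × ℝ :=
  (1369 / 625 / (max x.1 1) ^ 3 - 1 / (max x.1 1) ^ 2 - 1 / 25 * (kf (pz x)).re,
    -(201 / 25) * (kf (pz x)).im)

theorem pz_sq (x : ℝ × ℝ) : ‖pz x‖ ^ 2 = (max x.1 1) ^ 2 + x.2 ^ 2 := by
  rw [Complex.sq_norm, Complex.normSq_apply]; simp only [pz]; ring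

theorem pz_ge (x : ℝ × ℝ) : 1 ≤ ‖pz x‖ :=
  (le_max_right x.1 1).trans ((le_abs_self _).trans (Complex.abs_re_le_norm (pz x)))

theorem kf_re (x : ℝ × ℝ) : (kf (pz x)).re = max x.1 1 / ‖pz x‖ ^ 3 := by
  simp only [kf, Complex.real_smul, Complex.re_ofReal_mul]; simp only [pz]; ring

theorem kf_im (x : ℝ × ℝ) : (kf (pz x)).im = x.2 / ‖pz x‖ ^ 3 := by
  simp only [kf, Complex.real_smul, Complex.im_ofReal_mul]; simp only [pz]; ring

theorem kf_norm (x : ℝ × ℝ) : ‖kf (pz x)‖ ≤ 1 := by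
  have h := pz_ge x
  have h0 : 0 < ‖pz x‖ := by linarith
  rw [kf, norm_smul, Real.norm_of_nonneg (by positivity)]
  have : 1 / ‖pz x‖ ^ 3 * ‖pz x‖ = 1 / ‖pz x‖ ^ 2 := by field_simp
  rw [this, div_le_one (by positivity)]
  nlinarith

theorem inv_pow_lip (n : ℕ) {a b : ℝ} (ha : 1 ≤ a) (hb : 1 ≤ b) :
    |1 / a ^ n - 1 / b ^ n| ≤ n * |a - b| := by
  have ha0 : 0 < a := by linarith
  have hb0 : 0 < b := by linarith
  have h1 : |1 / a - 1 / b| ≤ |a - b| := by
    have : 1 / a - 1 / b = (b - a) / (a * b) := by field_simp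
    rw [this, abs_div, abs_sub_comm, abs_of_pos (mul_pos ha0 hb0)]
    exact div_le_self (abs_nonneg _) (by nlinarith)
  have h2 := abs_pow_sub_pow_le (1 / a) (1 / b) n
  rw [one_div_pow, one_div_pow] at h2
  refine h2.trans ?_
  have h3 : max |1 / a| |1 / b| ^ (n - 1) ≤ 1 := by
    refine pow_le_one₀ (le_max_of_le_left (abs_nonneg _)) (max_le ?_ ?_)
    · rw [abs_of_pos (by positivity), div_le_one ha0]; exact ha
    · rw [abs_of_pos (by positivity), div_le_one hb0]; exact hb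
  calc _ ≤ |a - b| * n * 1 := by gcongr
    _ = _ := by ring

theorem RF_lip : LipschitzWith 100 RF := by
  refine LipschitzWith.of_dist_le_mul fun x y => ?_
  have h1 : |x.1 - y.1| ≤ dist x y := by
    rw [← Real.dist_eq, Prod.dist_eq]; exact le_max_left _ _
  have h2 : |x.2 - y.2| ≤ dist x y := by
    rw [← Real.dist_eq, Prod.dist_eq]; exact le_max_right _ _
  have h3 : |max x.1 1 - max y.1 1| ≤ dist x y := (abs_max_sub_max_le_abs _ _ _).trans h1
  have h4 : ‖pz x - pz y‖ ≤ 2 * dist x y := by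
    refine (Complex.norm_le_abs_re_add_abs_im _).trans ?_
    simp only [pz, Complex.sub_re, Complex.sub_im]
    linarith
  have h5 := kf_lip one_pos (pz_ge x) (pz_ge y)
  have h6 := Complex.abs_re_le_norm (kf (pz x) - kf (pz y))
  have h7 := Complex.abs_im_le_norm (kf (pz x) - kf (pz y))
  have h8 := inv_pow_lip 2 (le_max_right x.1 1) (le_max_right y.1 1)
  have h9 := inv_pow_lip 3 (le_max_right x.1 1) (le_max_right y.1 1)
  rw [Complex.sub_re] at h6
  rw [Complex.sub_im] at h7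
  have h0 : 0 ≤ dist x y := dist_nonneg
  rw [Prod.dist_eq, Real.dist_eq, Real.dist_eq]
  simp only [RF, div_eq_mul_one_div (1369 / 625 : ℝ) (_ ^ 3)]
  push_cast at *
  rw [abs_le] at h3 h6 h7 h8 h9
  have h10 := abs_nonneg (max x.1 1 - max y.1 1)
  have h11 : |max x.1 1 - max y.1 1| ≤ dist x y := abs_le.2 h3
  refine max_le (abs_le.2 ⟨?_, ?_⟩) (abs_le.2 ⟨?_, ?_⟩) <;>
    linarith [h6.1, h6.2, h7.1, h7.2, h8.1, h8.2, h9.1, h9.2]

theorem RF_bd (x : ℝ × ℝ) : ‖RF x‖ ≤ (10 : NNReal) := by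
  have h1 := kf_norm x
  have h6 := abs_le.1 ((Complex.abs_re_le_norm (kf (pz x))).trans h1)
  have h7 := abs_le.1 ((Complex.abs_im_le_norm (kf (pz x))).trans h1)
  have hR := le_max_right x.1 1
  have h2 : ∀ n : ℕ, 0 ≤ 1 / (max x.1 1) ^ n ∧ 1 / (max x.1 1) ^ n ≤ 1 := fun n =>
    ⟨by positivity, by rw [div_le_one (by positivity)]; exact one_le_pow₀ hR⟩
  simp only [RF, div_eq_mul_one_div (1369 / 625 : ℝ) (_ ^ 3), Prod.norm_mk, Real.norm_eq_abs]
  push_cast
  refine max_le (abs_le.2 ⟨?_, ?_⟩) (abs_le.2 ⟨?_, ?_⟩) <;>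
    linarith [h6.1, h6.2, h7.1, h7.2, (h2 2).1, (h2 2).2, (h2 3).1, (h2 3).2]

noncomputable def fl (a : ℝ) : ℝ → (ℝ × ℝ) × (ℝ × ℝ) :=
  (second_order RF_lip RF_bd ((1, 0), (0, a))).choose

theorem fl_zero (a : ℝ) : fl a 0 = ((1, 0), (0, a)) :=
  (second_order RF_lip RF_bd ((1, 0), (0, a))).choose_spec.1

theorem fl_d (a t : ℝ) : HasDerivAt (fl a) (fld RF (fl a t)) t :=
  (second_order RF_lip RF_bd ((1, 0), (0, a))).choose_spec.2 t

structure Sol (a : ℝ) (ρ σ z w D : ℝ → ℝ) : Prop where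
  r0 : ρ 0 = 1
  s0 : σ 0 = 0
  z0 : z 0 = 0
  w0 : w 0 = a
  dr : ∀ t, HasDerivAt ρ (σ t) t
  dz : ∀ t, HasDerivAt z (w t) t
  ds : ∀ t, HasDerivAt σ (1369 / 625 / (max (ρ t) 1) ^ 3 - 1 / (max (ρ t) 1) ^ 2
    - 1 / 25 * (max (ρ t) 1 / D t ^ 3)) t
  dw : ∀ t, HasDerivAt w (-(201 / 25) * (z t / D t ^ 3)) t
  D1 : ∀ t, 1 ≤ D t
  D2 : ∀ t, D t ^ 2 = (max (ρ t) 1) ^ 2 + z t ^ 2
  re : ∀ t, ρ (-t) = ρ t
  se : ∀ t, σ (-t) = -σ t
  zo : ∀ t, z (-t) = -z t

theorem fl_sym (a t : ℝ) : fl a t =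
    (((fl a (-t)).1.1, -(fl a (-t)).1.2), (-(fl a (-t)).2.1, (fl a (-t)).2.2)) := by
  have := uniq (fld_lip RF_lip) (fl_d a) (β := fun t =>
    (((fl a (-t)).1.1, -(fl a (-t)).1.2), (-(fl a (-t)).2.1, (fl a (-t)).2.2))) (fun t => by
      have h : HasDerivAt (fun s => fl a (-s)) (-fld RF (fl a (-t))) t := by
        have := (fl_d a (-t)).scomp t (hasDerivAt_neg t)
        rw [neg_one_smul] at this
        exact this
      have h1 := ((dfst (dfst h)).prodMk (dsnd (dfst h)).fun_neg).prodMk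
        ((dfst (dsnd h)).fun_neg.prodMk (dsnd (dsnd h)))
      have hn : ∀ x : ℝ × ℝ, ‖pz (x.1, -x.2)‖ = ‖pz x‖ := fun x => by
        rw [← sq_eq_sq₀ (norm_nonneg _) (norm_nonneg _), pz_sq, pz_sq]; simp
      refine h1.congr_deriv ?_
      simp only [fld, RF, kf_re, kf_im, hn]
      simp [neg_div]) (by simp [fl_zero])
  exact congrFun this t

theorem fl_sol (a : ℝ) : Sol a (fun t => (fl a t).1.1) (fun t => (fl a t).2.1)
    (fun t => (fl a t).1.2) (fun t => (fl a t).2.2) (fun t => ‖pz (fl a t).1‖) where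
  r0 := by simp [fl_zero]
  s0 := by simp [fl_zero]
  z0 := by simp [fl_zero]
  w0 := by simp [fl_zero]
  dr t := dfst (dfst (fl_d a t))
  dz t := dsnd (dfst (fl_d a t))
  ds t := by simpa [fld, RF, kf_re] using dfst (dsnd (fl_d a t))
  dw t := by simpa [fld, RF, kf_im] using dsnd (dsnd (fl_d a t))
  D1 t := pz_ge _
  D2 t := pz_sq _
  re t := by have := congrArg (fun p => p.1.1) (fl_sym a t); exact this.symm
  se t := by
    have := congrArg (fun p => p.2.1) (fl_sym a t)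
    simp only at this ⊢; linarith
  zo t := by
    have := congrArg (fun p => p.1.2) (fl_sym a t)
    simp only at this ⊢; linarith

namespace Sol
variable {a : ℝ} {ρ σ z w D : ℝ → ℝ} (S : Sol a ρ σ z w D)
include S

theorem r1_of {τ : ℝ} (h : ∀ s ∈ Icc 0 τ, 0 ≤ σ s) {s : ℝ} (hs : s ∈ Icc 0 τ) : 1 ≤ ρ s := by
  have := mono hs.1 (fun u _ => S.dr u) (fun u hu => h u ⟨hu.1, hu.2.trans hs.2⟩)
  rwa [S.r0] at this

theorem rD {s : ℝ} (h : 1 ≤ ρ s) : 0 ≤ ρ s / D s ^ 3 ∧ ρ s / D s ^ 3 ≤ 1 / ρ s ^ 2 := by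
  have h1 := S.D1 s
  have h2 := S.D2 s
  rw [max_eq_left h] at h2
  have h3 : ρ s ≤ D s := by
    refine le_of_sq_le_sq ?_ ?_ <;> nlinarith [sq_nonneg (z s)]
  refine ⟨by positivity, ?_⟩
  calc _ ≤ ρ s / ρ s ^ 3 := by gcongr
    _ = _ := by field_simp

theorem en_of {τ : ℝ} (hτ : 0 ≤ τ) (h : ∀ s ∈ Icc 0 τ, 0 ≤ σ s) :
    69 / 1250 ≤ σ τ ^ 2 / 2 + 1369 / 1250 / ρ τ ^ 2 - 26 / 25 / ρ τ := by
  have := mono (f := fun s => σ s ^ 2 / 2 + 1369 / 1250 * (ρ s ^ 2)⁻¹ - 26 / 25 * (ρ s)⁻¹) hτ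
    (fun u hu => by
      have h0 : ρ u ≠ 0 := by have := S.r1_of h hu; linarith
      exact ((((S.ds u).fun_pow 2).div_const 2).fun_add
        ((((S.dr u).fun_pow 2).fun_inv (pow_ne_zero 2 h0)).const_mul _)).fun_sub
          (((S.dr u).fun_inv h0).const_mul _))
    (fun u hu => by
      have h1 := S.r1_of h hu
      have h0 : 0 < ρ u := by linarith
      have h2 := mul_nonneg (h u hu) (sub_nonneg.2 (S.rD h1).2)
      rw [max_eq_left h1]
      refine le_trans (mul_nonneg (show (0 : ℝ) ≤ 1 / 25 by norm_num) h2) (le_of_eq ?_)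
      simp only [Nat.cast_ofNat]
      field_simp
      ring)
  simp only [S.s0, S.r0] at this
  simp only [div_eq_mul_inv (1369 / 1250 : ℝ), div_eq_mul_inv (26 / 25 : ℝ)]
  linarith

theorem s_nn : ∀ t, 0 ≤ t → 0 ≤ σ t := by
  refine boot (continuous_iff_continuousAt.2 fun t => (S.ds t).continuousAt) S.s0.ge
    fun τ hτ h hz => ⟨_, ?_, S.ds τ⟩
  have h1 := S.r1_of h ⟨hτ, le_rfl⟩
  have h0 : 0 < ρ τ := by linarith
  have h2 := S.en_of hτ h
  have h3 := (S.rD h1).2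
  rw [max_eq_left h1]
  rw [hz] at h2
  have e1 : 1369 / 625 / ρ τ ^ 3 = 2 * (1369 / 1250 / ρ τ ^ 2 - 26 / 25 / ρ τ) / ρ τ
      + 52 / 25 * (1 / ρ τ ^ 2) := by field_simp; ring
  have h4 : 0 < 2 * (1369 / 1250 / ρ τ ^ 2 - 26 / 25 / ρ τ) / ρ τ := div_pos (by linarith) h0
  have h5 : 0 < 1 / ρ τ ^ 2 := by positivity
  linarith

theorem r1p {t : ℝ} (ht : 0 ≤ t) : 1 ≤ ρ t := S.r1_of (fun s hs => S.s_nn s hs.1) ⟨ht, le_rfl⟩

theorem r1 (t : ℝ) : 1 ≤ ρ t := by
  rcases le_total 0 t with h | h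
  · exact S.r1p h
  · rw [← S.re]; exact S.r1p (by linarith)

theorem ds' (t : ℝ) : HasDerivAt σ (1369 / 625 / ρ t ^ 3 - 1 / ρ t ^ 2
    - 1 / 25 * (ρ t / D t ^ 3)) t := by
  have := S.ds t
  rwa [max_eq_left (S.r1 t)] at this

theorem D2' (t : ℝ) : D t ^ 2 = ρ t ^ 2 + z t ^ 2 := by
  have := S.D2 t
  rwa [max_eq_left (S.r1 t)] at this

theorem lowp {t : ℝ} (ht : 0 ≤ t) : 1 + t ^ 2 / 10 ≤ ρ t ^ 2 := by
  have h1 : ∀ s, 0 ≤ s → s / 10 ≤ ρ s * σ s := fun s hs => by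
    have := mono (f := fun u => ρ u * σ u - u / 10) hs
      (fun u _ => ((S.dr u).fun_mul (S.ds' u)).fun_sub ((hasDerivAt_id' u).div_const 10))
      (fun u hu => by
        have h1 := S.r1 u
        have h0 : 0 < ρ u := by linarith
        have h2 := S.en_of hu.1 (fun s hs => S.s_nn s hs.1)
        have h3 := mul_le_mul_of_nonneg_left (S.rD h1).2 h0.le
        have e1 : ρ u * (1369 / 625 / ρ u ^ 3 - 1 / ρ u ^ 2 - 1 / 25 * (ρ u / D u ^ 3)) =
          2 * (1369 / 1250 / ρ u ^ 2) - 1 / ρ u - 1 / 25 * (ρ u * (ρ u / D u ^ 3)) := by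
            field_simp; ring
        have e2 : ρ u * (1 / ρ u ^ 2) = 1 / ρ u := by field_simp
        have e3 : 26 / 25 / ρ u = 26 / 25 * (1 / ρ u) := by ring
        have h5 : 0 < 1 / ρ u := by positivity
        rw [e1]; nlinarith)
    simp only [S.s0] at this
    linarith
  have := mono (f := fun u => ρ u ^ 2 - u ^ 2 / 10) ht
    (fun u _ => ((S.dr u).fun_pow 2).fun_sub (((hasDerivAt_id' u).fun_pow 2).div_const 10))
    (fun u hu => by have := h1 u hu.1; simp only [Nat.cast_ofNat]; norm_num; linarith)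
  simp only [S.r0] at this
  linarith

theorem low (t : ℝ) : 1 + t ^ 2 / 10 ≤ ρ t ^ 2 := by
  rcases le_total 0 t with h | h
  · exact S.lowp h
  · have := S.lowp (t := -t) (by linarith)
    rwa [S.re, neg_sq] at this

theorem up {t : ℝ} (ht : 0 ≤ t) : ρ t ^ 2 ≤ 1 + 1369 / 625 * t ^ 2 := by
  have h0 : ∀ s, 0 ≤ s → σ s ^ 2 + 1369 / 625 * (ρ s ^ 2)⁻¹ ≤ 1369 / 625 := fun s hs => by
    have := mono (f := fun s => -(σ s ^ 2 + 1369 / 625 * (ρ s ^ 2)⁻¹)) hs
      (fun u _ => by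
        have h0 : ρ u ≠ 0 := by have := S.r1 u; linarith
        exact (((S.ds' u).fun_pow 2).fun_add
          ((((S.dr u).fun_pow 2).fun_inv (pow_ne_zero 2 h0)).const_mul _)).fun_neg)
      (fun u hu => by
        have h1 := S.r1 u
        have h0 : 0 < ρ u := by linarith
        have h2 := (S.rD h1).1
        have h3 : 0 ≤ 2 * σ u * (1 / ρ u ^ 2 + 1 / 25 * (ρ u / D u ^ 3)) :=
          mul_nonneg (by linarith [S.s_nn u hu.1]) (by positivity)
        refine h3.trans (le_of_eq ?_)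
        simp only [Nat.cast_ofNat]
        field_simp
        ring)
    simp only [S.s0, S.r0] at this
    linarith
  have h1 : ∀ s, 0 ≤ s → ρ s * σ s ≤ 1369 / 625 * s := fun s hs => by
    have := mono (f := fun u => 1369 / 625 * u - ρ u * σ u) hs
      (fun u _ => ((hasDerivAt_id' u).const_mul _).fun_sub ((S.dr u).fun_mul (S.ds' u)))
      (fun u hu => by
        have h1 := S.r1 u
        have h5 : 0 < ρ u := by linarith
        have h2 := h0 u hu.1
        have h3 := mul_nonneg h5.le (S.rD h1).1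
        have e1 : ρ u * (1369 / 625 / ρ u ^ 3 - 1 / ρ u ^ 2 - 1 / 25 * (ρ u / D u ^ 3)) =
          1369 / 625 * (ρ u ^ 2)⁻¹ - 1 / ρ u - 1 / 25 * (ρ u * (ρ u / D u ^ 3)) := by
            field_simp
        have h6 : 0 < 1 / ρ u := by positivity
        rw [e1]; nlinarith)
    simp only [S.s0] at this
    linarith
  have := mono (f := fun u => 1369 / 625 * u ^ 2 - ρ u ^ 2) ht
    (fun u _ => (((hasDerivAt_id' u).fun_pow 2).const_mul _).fun_sub ((S.dr u).fun_pow 2))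
    (fun u hu => by have := h1 u hu.1; simp only [Nat.cast_ofNat]; norm_num; linarith)
  simp only [S.r0] at this
  linarith

theorem zD (t : ℝ) : |z t / D t ^ 3| ≤ 1 / ρ t ^ 2 := by
  have h1 := S.D1 t
  have h2 := S.D2' t
  have h3 := S.r1 t
  have h4 : |z t| ≤ D t := abs_le_of_sq_le_sq (by nlinarith) (by linarith)
  rw [abs_div, abs_of_pos (a := D t ^ 3) (by positivity)]
  calc _ ≤ D t / D t ^ 3 := by gcongr
    _ = 1 / D t ^ 2 := by field_simp
    _ ≤ _ := by gcongr; nlinarith [sq_nonneg (z t)]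

theorem inv_r {t : ℝ} (ht : t ≠ 0) : 1 / ρ t ^ 2 ≤ 10 / t ^ 2 := by
  have h1 := S.low t
  have h2 : 0 < t ^ 2 := by positivity
  rw [div_le_div_iff₀ (by linarith) h2]
  linarith

theorem wb (t : ℝ) (ht : 0 < t) : ‖-(201 / 25) * (z t / D t ^ 3)‖ ≤ 81 / t ^ 2 := by
  have h1 := (S.zD t).trans (S.inv_r ht.ne')
  rw [Real.norm_eq_abs, abs_mul, abs_neg, abs_of_pos (by norm_num : (0 : ℝ) < 201 / 25)]
  have : 81 / t ^ 2 = 81 / 10 * (10 / t ^ 2) := by ring
  have h2 : 0 ≤ 10 / t ^ 2 := by positivity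
  nlinarith

theorem w_low {t : ℝ} (ht : 0 ≤ t) : a - 9 * t ≤ w t := by
  have := mono (f := fun u => w u + 9 * u) ht
    (fun u _ => (S.dw u).fun_add ((hasDerivAt_id' u).const_mul 9))
    (fun u _ => by
      have h1 := (abs_le.1 (S.zD u)).2
      have h2 : 1 / ρ u ^ 2 ≤ 1 := by
        have := S.r1 u
        rw [div_le_one (by positivity)]; nlinarith
      linarith)
  simp only [S.w0] at this
  linarith

theorem z_mono (h : ∀ t, 0 ≤ t → 0 ≤ w t) {s t : ℝ} (hs : 0 ≤ s) (ht : s ≤ t) : z s ≤ z t :=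
  mono ht (fun u _ => S.dz u) (fun u hu => h u (hs.trans hu.1))

theorem w_anti (h : ∀ t, 0 ≤ t → 0 ≤ w t) {s t : ℝ} (hs : 0 ≤ s) (ht : s ≤ t) : w t ≤ w s := by
  have := mono (f := fun u => -w u) ht (fun u _ => (S.dw u).fun_neg) (fun u hu => by
    have h1 := S.z_mono h le_rfl (hs.trans hu.1)
    rw [S.z0] at h1
    have h2 := S.D1 u
    have : 0 ≤ z u / D u ^ 3 := by positivity
    linarith)
  simpa using this

theorem turn (ha : a = 1 / 5) : ∃ t, 0 ≤ t ∧ w t < 0 := by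
  by_contra hn
  push Not at hn
  have hz : ∀ t, 0 ≤ t → 0 ≤ z t ∧ z t ≤ t / 5 := fun t ht => by
    have h1 := S.z_mono hn le_rfl ht
    have h2 := mono (f := fun u => u / 5 - z u) ht
      (fun u _ => ((hasDerivAt_id' u).div_const 5).fun_sub (S.dz u)) (fun u hu => by
        have := S.w_anti hn le_rfl hu.1
        rw [S.w0, ha] at this
        linarith)
    simp only [S.z0] at h1 h2
    constructor <;> linarith
  have h1 : 1 / 1000 ≤ z (1 / 2) := by
    have h2 := mono (f := fun u => z u - u / 10) (a := 0) (b := 1 / 100) (by norm_num)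
      (fun u _ => (S.dz u).fun_sub ((hasDerivAt_id' u).div_const 10)) (fun u hu => by
        have := S.w_low hu.1
        linarith [hu.2])
    have h3 := S.z_mono hn (s := 1 / 100) (t := 1 / 2) (by norm_num) (by norm_num)
    simp only [S.z0] at h2
    linarith
  have h2 : w (1 / 2) ≤ 2 * z (1 / 2) := by
    have := mono (f := fun u => z u - u * w (1 / 2)) (a := 0) (b := 1 / 2) (by norm_num)
      (fun u _ => (S.dz u).fun_sub ((hasDerivAt_id' u).mul_const _)) (fun u hu => by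
        have := S.w_anti hn hu.1 hu.2
        linarith)
    simp only [S.z0] at this
    linarith
  have hN : ∀ u : ℝ, 0 < 1 + 9 / 4 * u ^ 2 := fun u => by positivity
  have h3 := mono (f := fun u => -w u - 201 / 25 * z (1 / 2) * (u / √(1 + 9 / 4 * u ^ 2)))
    (a := 1 / 2) (b := 40 / 11) (by norm_num)
    (fun u _ => (S.dw u).fun_neg.fun_sub (((hasDerivAt_id' u).fun_div
      (((((hasDerivAt_id' u).fun_pow 2).const_mul (9 / 4)).const_add 1).sqrt (hN u).ne')
      (Real.sqrt_pos.2 (hN u)).ne').const_mul _))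
    (fun u hu => by
      have hu0 : 0 ≤ u := by linarith [hu.1]
      have n0 := Real.sqrt_pos.2 (hN u)
      have n2 := Real.sq_sqrt (hN u).le
      set N := √(1 + 9 / 4 * u ^ 2) with hNdef
      have e : (1 * N - u * (9 / 4 * (((2 : ℕ) : ℝ) * u ^ (2 - 1) * 1) / (2 * N))) / N ^ 2
          = 1 / N ^ 3 := by
        simp only [Nat.cast_ofNat, Nat.add_one_sub_one, pow_one]
        field_simp
        nlinarith
      rw [e]
      have d1 := S.D1 u
      have d2 : D u ≤ N := by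
        have a1 := S.D2' u
        have a2 := S.up hu0
        have a3 := hz u hu0
        refine le_of_sq_le_sq ?_ n0.le
        nlinarith [a3.1, a3.2]
      have d3 : z (1 / 2) / N ^ 3 ≤ z u / D u ^ 3 := by
        have := S.z_mono hn (s := 1 / 2) (by norm_num) hu.1
        gcongr
        exact (hz u hu0).1
      have e2 : 201 / 25 * z (1 / 2) * (1 / N ^ 3) = 201 / 25 * (z (1 / 2) / N ^ 3) := by ring
      rw [e2]
      linarith)
  have s1 : √(1 + 9 / 4 * (1 / 2 : ℝ) ^ 2) = 5 / 4 := by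
    rw [show (1 + 9 / 4 * (1 / 2 : ℝ) ^ 2) = (5 / 4) ^ 2 by norm_num]
    exact Real.sqrt_sq (by norm_num)
  have s2 : √(1 + 9 / 4 * (40 / 11 : ℝ) ^ 2) = 61 / 11 := by
    rw [show (1 + 9 / 4 * (40 / 11 : ℝ) ^ 2) = (61 / 11) ^ 2 by norm_num]
    exact Real.sqrt_sq (by norm_num)
  simp only [s1, s2] at h3
  have := hn (40 / 11) (by norm_num)
  linarith

theorem big (ha : a = 100) (t : ℝ) (ht : 0 ≤ t) : 1 ≤ w t := by
  rcases le_total t 1 with h | h
  · have := S.w_low ht; linarith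
  · have h1 := S.w_low zero_le_one
    have h2 := tail S.dw S.wb one_pos h
    have h3 : 0 ≤ 81 / t := by positivity
    have := (abs_le.1 h2).1
    linarith

end Sol

theorem fl_close (a b : ℝ) {t T : ℝ} (ht : 0 ≤ t) (hT : 0 < T) :
    |(fl a t).2.2 - (fl b t).2.2| ≤ |a - b| * Real.exp (100 * T) + 162 / T := by
  have key : ∀ s, 0 ≤ s → s ≤ T → |(fl a s).2.2 - (fl b s).2.2| ≤ |a - b| * Real.exp (100 * T) := by
    intro s h1 h2
    have := gron (fld_lip RF_lip) (fl_d a) (fl_d b) h1 h2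
    rw [fl_zero, fl_zero] at this
    have e : ((max 1 (100 * 1) : NNReal) : ℝ) = 100 := by norm_num
    rw [e] at this
    simp only [Prod.dist_eq, dist_self, Real.dist_eq] at this
    rw [max_eq_right (abs_nonneg (a - b)), max_eq_right (abs_nonneg (a - b))] at this
    exact le_trans (le_max_of_le_right (le_max_right _ _)) this
  have h0 : 0 ≤ 162 / T := by positivity
  rcases le_total t T with h | h
  · linarith [key t ht h]
  · have h1 := tail (fl_sol a).dw (fl_sol a).wb hT h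
    have h2 := tail (fl_sol b).dw (fl_sol b).wb hT h
    have h3 := key T hT.le le_rfl
    have h4 : 0 ≤ 81 / t := by positivity
    have e : 162 / T = 81 / T + 81 / T := by ring
    rw [Real.norm_eq_abs, abs_le] at h1 h2
    rw [abs_le] at h3 ⊢
    constructor <;> linarith [h1.1, h1.2, h2.1, h2.2, h3.1, h3.2]

theorem fl_near (a η : ℝ) (hη : 0 < η) :
    ∀ᶠ b in 𝓝 a, ∀ t, 0 ≤ t → |(fl b t).2.2 - (fl a t).2.2| < η := by
  have hT : 0 < 400 / η := by positivity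
  have c : Continuous fun b : ℝ => |b - a| * Real.exp (100 * (400 / η)) := by fun_prop
  have h1 : ∀ᶠ b in 𝓝 a, |b - a| * Real.exp (100 * (400 / η)) < η / 2 :=
    c.continuousAt.eventually_lt continuousAt_const (by simpa using hη)
  filter_upwards [h1] with b hb t ht
  have := fl_close b a ht hT
  have e : 162 / (400 / η) = 162 / 400 * η := by field_simp
  linarith

theorem shoot : ∃ a, 0 < a ∧ ∃ ρ σ z w D : ℝ → ℝ, Sol a ρ σ z w D ∧ Tendsto w atTop (𝓝 0) := by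
  let A : Set ℝ := {a | ∃ t, 0 ≤ t ∧ (fl a t).2.2 < 0}
  let B : Set ℝ := {a | ∃ η, 0 < η ∧ ∀ t, 0 ≤ t → η ≤ (fl a t).2.2}
  have hA : IsOpen A := isOpen_iff_mem_nhds.2 fun a ⟨t, ht, h⟩ => by
    filter_upwards [fl_near a _ (neg_pos.2 h)] with b hb
    exact ⟨t, ht, by linarith [(abs_lt.1 (hb t ht)).2]⟩
  have hB : IsOpen B := isOpen_iff_mem_nhds.2 fun a ⟨η, hη, h⟩ => by
    filter_upwards [fl_near a _ (half_pos hη)] with b hb
    exact ⟨η / 2, half_pos hη, fun t ht => by linarith [(abs_lt.1 (hb t ht)).1, h t ht]⟩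
  have h1 : (1 / 5 : ℝ) ∈ A := (fl_sol _).turn rfl
  have h2 : (100 : ℝ) ∈ B := ⟨1, one_pos, (fl_sol _).big rfl⟩
  have h3 : ¬ Icc (1 / 5 : ℝ) 100 ⊆ A ∪ B := fun h => by
    obtain ⟨c, -, ⟨t, ht, h4⟩, η, hη, h5⟩ := isPreconnected_Icc A B hA hB h
      ⟨_, ⟨le_rfl, by norm_num⟩, h1⟩ ⟨_, ⟨by norm_num, le_rfl⟩, h2⟩
    linarith [h5 t ht]
  obtain ⟨a, ha, h4⟩ := not_subset.1 h3
  have S := fl_sol a
  refine ⟨a, by linarith [ha.1], _, _, _, _, _, S, ?_⟩
  have h5 : ∀ t, 0 ≤ t → 0 ≤ (fl a t).2.2 := fun t ht => by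
    by_contra h
    exact h4 (Or.inl ⟨t, ht, not_le.1 h⟩)
  obtain ⟨L, hL, -⟩ := lim (by norm_num) S.dz S.dw S.wb
  have h6 : 0 ≤ L := ge_of_tendsto hL (by
    filter_upwards [eventually_ge_atTop 0] with t ht using h5 t ht)
  rcases h6.eq_or_lt with e | e
  · rwa [← e] at hL
  · refine absurd (Or.inr ⟨L, e, fun t ht => le_of_tendsto hL ?_⟩) h4
    filter_upwards [eventually_ge_atTop t] with s hs using S.w_anti h5 ht hs

end Pool.Agent.H.BiH
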