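import Mathlib
import Pool.Agent.H.MP_125cfc_an.Red
set_option autoImplicit false
namespace Pool.Agent.H.BiH
open Set Filter Topology

theorem limBot {x v a : ℝ → ℝ} {C : ℝ} (hC : 0 ≤ C) (hx : ∀ s, HasDerivAt x (v s) s)
    (hv : ∀ s, HasDerivAt v (a s) s) (ha : ∀ s, s ≠ 0 → ‖a s‖ ≤ C / s ^ 2) :
    ∃ L, Tendsto (fun t : ℝ => |t|⁻¹ * x t) atBot (𝓝 L) := by
  obtain ⟨L, -, hL⟩ := lim (x := fun s => x (-s)) (v := fun s => -v (-s)) (a := fun s => a (-s)) hC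
    (fun s => ((hx (-s)).comp s (hasDerivAt_neg s)).congr_deriv (by ring))
    (fun s => by simpa using ((hv (-s)).comp s (hasDerivAt_neg s)).fun_neg)
    (fun s hs => by simpa using ha (-s) (by linarith))
  refine ⟨L, (hL.comp tendsto_neg_atBot_atTop).congr' ?_⟩
  filter_upwards [eventually_le_atBot 0] with t ht
  simp [abs_of_nonpos ht]

theorem Sol.plane {a : ℝ} {ρ σ z w D : ℝ → ℝ} (S : Sol a ρ σ z w D) :
    ∃ x y x1 y1 : ℝ → ℝ, x 0 = 1 ∧ y 0 = 0 ∧ x1 0 = 0 ∧ (∀ t, x t ^ 2 + y t ^ 2 = ρ t ^ 2) ∧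
      (∀ t, HasDerivAt x (x1 t) t) ∧ (∀ t, HasDerivAt y (y1 t) t) ∧
      (∀ t, HasDerivAt x1 (-(1 / ρ t ^ 3 + 1 / 25 / D t ^ 3) * x t) t) ∧
      (∀ t, HasDerivAt y1 (-(1 / ρ t ^ 3 + 1 / 25 / D t ^ 3) * y t) t) := by
  have h0 : ∀ t, ρ t ≠ 0 := fun t => by have := S.r1 t; linarith
  have hD : ∀ t, D t ≠ 0 := fun t => by have := S.D1 t; linarith
  have cρ : Continuous ρ := continuous_iff_continuousAt.2 fun t => (S.dr t).continuousAt
  have c : Continuous fun s => 37 / 25 / ρ s ^ 2 :=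
    continuous_const.div (cρ.pow 2) fun s => pow_ne_zero 2 (h0 s)
  obtain ⟨φ, hφ⟩ : ∃ φ : ℝ → ℝ, φ = fun t => ∫ s in (0 : ℝ)..t, 37 / 25 / ρ s ^ 2 := ⟨_, rfl⟩
  have d : ∀ t, HasDerivAt φ (37 / 25 / ρ t ^ 2) t := fun t =>
    hφ ▸ (c.integral_hasStrictDerivAt 0 t).hasDerivAt
  have φ0 : φ 0 = 0 := by simp [hφ]
  refine ⟨fun t => ρ t * Real.cos (φ t), fun t => ρ t * Real.sin (φ t),
    fun t => σ t * Real.cos (φ t) - 37 / 25 * (ρ t)⁻¹ * Real.sin (φ t),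
    fun t => σ t * Real.sin (φ t) + 37 / 25 * (ρ t)⁻¹ * Real.cos (φ t),
    by simp [φ0, S.r0], by simp [φ0], by simp [φ0, S.s0], fun t => ?_, fun t => ?_, fun t => ?_,
    fun t => ?_, fun t => ?_⟩
  · have := Real.cos_sq_add_sin_sq (φ t)
    linear_combination ρ t ^ 2 * this
  · refine ((S.dr t).fun_mul (d t).cos).congr_deriv ?_
    have := h0 t
    field_simp; ring
  · refine ((S.dr t).fun_mul (d t).sin).congr_deriv ?_
    have := h0 t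
    field_simp
  · refine (((S.ds' t).fun_mul (d t).cos).fun_sub
      ((((S.dr t).fun_inv (h0 t)).const_mul _).fun_mul (d t).sin)).congr_deriv ?_
    have := h0 t
    have := hD t
    field_simp; ring
  · refine (((S.ds' t).fun_mul (d t).sin).fun_add
      ((((S.dr t).fun_inv (h0 t)).const_mul _).fun_mul (d t).cos)).congr_deriv ?_
    have := h0 t
    have := hD t
    field_simp; ring

abbrev E4 := EuclideanSpace ℝ (Fin 4)

noncomputable def PP : Fin 3 → E4 := ![!₂[1, 0, 0, 0], !₂[-1, 0, 0, 0], !₂[0, 0, 0, 0]]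
noncomputable def QQ : Fin 3 → E4 := ![!₂[0, 1, 0, 0], !₂[0, -1, 0, 0], !₂[0, 0, 0, 0]]
noncomputable def RR (θ : ℝ) : Fin 3 → E4 :=
  ![!₂[0, 0, -(1 / 201) * Real.cos θ, -(1 / 201) * Real.sin θ],
    !₂[0, 0, -(1 / 201) * Real.cos θ, -(1 / 201) * Real.sin θ],
    !₂[0, 0, 200 / 201 * Real.cos θ, 200 / 201 * Real.sin θ]]
noncomputable def cfg (θ x y z : ℝ) : Fin 3 → E4 := x • PP + y • QQ + z • RR θ
noncomputable def ms : Fin 3 → ℝ := ![4, 4, 1 / 25]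

theorem nrm {v : E4} {r : ℝ} (hr : 0 ≤ r) (h : v 0 ^ 2 + v 1 ^ 2 + v 2 ^ 2 + v 3 ^ 2 = r ^ 2) :
    ‖v‖ = r := by
  rw [EuclideanSpace.norm_eq, Fin.sum_univ_four]
  simp only [Real.norm_eq_abs, sq_abs]
  rw [h, Real.sqrt_sq hr]

section
variable {θ x y z r D : ℝ}

theorem n10 (hr : 0 ≤ r) (h : x ^ 2 + y ^ 2 = r ^ 2) : ‖cfg θ x y z 1 - cfg θ x y z 0‖ = 2 * r :=
  nrm (by linarith) (by simp [cfg, PP, QQ, RR]; linear_combination 4 * h)

theorem n20 (hD : 0 ≤ D) (h : D ^ 2 = x ^ 2 + y ^ 2 + z ^ 2) :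
    ‖cfg θ x y z 2 - cfg θ x y z 0‖ = D :=
  nrm hD (by
    simp [cfg, PP, QQ, RR]
    linear_combination z ^ 2 * Real.cos_sq_add_sin_sq θ - h)

theorem n21 (hD : 0 ≤ D) (h : D ^ 2 = x ^ 2 + y ^ 2 + z ^ 2) :
    ‖cfg θ x y z 2 - cfg θ x y z 1‖ = D :=
  nrm hD (by
    simp [cfg, PP, QQ, RR]
    linear_combination z ^ 2 * Real.cos_sq_add_sin_sq θ - h)

theorem cfg_ne (h : 0 < x ^ 2 + y ^ 2) (i j : Fin 3) (hij : i ≠ j) :
    cfg θ x y z i ≠ cfg θ x y z j := by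
  intro e
  have e0 := congrArg (fun v : E4 => v 0) e
  have e1 := congrArg (fun v : E4 => v 1) e
  have : x = 0 ∧ y = 0 := by
    fin_cases i <;> fin_cases j <;> simp [cfg, PP, QQ, RR] at hij e0 e1 <;>
      constructor <;> linarith
  rw [this.1, this.2] at h
  simp at h

theorem cfg_NF (hr : 0 < r) (hD : 0 < D) (h : x ^ 2 + y ^ 2 = r ^ 2) (h2 : D ^ 2 = r ^ 2 + z ^ 2) :
    NF ms (cfg θ x y z) = cfg θ (-(1 / r ^ 3 + 1 / 25 / D ^ 3) * x)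
      (-(1 / r ^ 3 + 1 / 25 / D ^ 3) * y) (-(201 / 25) * (z / D ^ 3)) := by
  have a10 := n10 (θ := θ) (z := z) hr.le h
  have a20 := n20 (θ := θ) hD.le (h2.trans (by rw [h]))
  have a21 := n21 (θ := θ) hD.le (h2.trans (by rw [h]))
  have a01 := (norm_sub_rev _ _).trans a10
  have a02 := (norm_sub_rev _ _).trans a20
  have a12 := (norm_sub_rev _ _).trans a21
  have e : ∀ i, NF ms (cfg θ x y z) i = ∑ j, (ms j / ‖cfg θ x y z j - cfg θ x y z i‖ ^ 3) •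
      (cfg θ x y z j - cfg θ x y z i) := fun i => Finset.sum_erase _ (by simp)
  have hr' := hr.ne'
  have hD' := hD.ne'
  funext i
  rw [e, Fin.sum_univ_three]
  fin_cases i
  · simp only [Fin.zero_eta, sub_self, smul_zero, a10, a20]
    ext k
    fin_cases k <;> simp [cfg, PP, QQ, RR, ms] <;> field_simp <;> ring
  · simp only [Fin.mk_one, sub_self, smul_zero, a01, a21]
    ext k
    fin_cases k <;> simp [cfg, PP, QQ, RR, ms] <;> field_simp <;> ring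
  · simp only [Fin.reduceFinMk, sub_self, smul_zero, a02, a12]
    ext k
    fin_cases k <;> simp [cfg, PP, QQ, RR, ms] <;> field_simp <;> ring

theorem cfg_com : ∑ i, ms i • cfg θ x y z i = 0 := by
  rw [Fin.sum_univ_three]
  ext k
  fin_cases k <;> simp [cfg, PP, QQ, RR, ms] <;> ring

theorem cfg_inner : ∑ i, ms i * inner ℝ (cfg θ 1 0 0 i) (cfg θ 0 y z i) = 0 := by
  rw [Fin.sum_univ_three]
  simp [cfg, PP, QQ, RR, ms, PiLp.inner_apply, Fin.sum_univ_four]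

end

theorem cfg_deriv (θ : ℝ) {x y z : ℝ → ℝ} {a b c t : ℝ} (hx : HasDerivAt x a t)
    (hy : HasDerivAt y b t) (hz : HasDerivAt z c t) :
    HasDerivAt (fun s => cfg θ (x s) (y s) (z s)) (cfg θ a b c) t :=
  ((hx.smul_const PP).fun_add (hy.smul_const QQ)).fun_add (hz.smul_const (RR θ))

theorem cfg_lim (θ : ℝ) {l : Filter ℝ} {k x y z : ℝ → ℝ} {a b : ℝ}
    (hx : Tendsto (fun t => k t * x t) l (𝓝 a)) (hy : Tendsto (fun t => k t * y t) l (𝓝 b))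
    (hz : Tendsto (fun t => k t * z t) l (𝓝 0)) :
    Tendsto (fun t => k t • cfg θ (x t) (y t) (z t)) l (𝓝 (cfg 0 a b 0)) := by
  have := ((hx.smul_const PP).add (hy.smul_const QQ)).add (hz.smul_const (RR θ))
  simpa [cfg, smul_add, smul_smul] using this

theorem cfg_cont (x y z : ℝ) : Continuous fun θ => cfg θ x y z := by
  unfold cfg
  refine continuous_const.add (Continuous.const_smul ?_ z)
  refine continuous_pi fun i => ?_
  fin_cases i <;> simp only [RR] <;> simp <;> fun_prop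

theorem sq_lim {l : Filter ℝ} [l.NeBot] {k x y : ℝ → ℝ} {a b : ℝ}
    (hx : Tendsto (fun t => k t * x t) l (𝓝 a)) (hy : Tendsto (fun t => k t * y t) l (𝓝 b))
    (h : ∀ᶠ t in l, 1 / 10 ≤ (k t * x t) ^ 2 + (k t * y t) ^ 2) : 0 < a ^ 2 + b ^ 2 := by
  have := ge_of_tendsto ((hx.pow 2).add (hy.pow 2)) h
  linarith

theorem family : ∃ (a b : ℝ) (am ap : Fin 3 → E4) (γ γ' : ℝ → ℝ → Fin 3 → E4), 0 < a ∧
    (∀ i j, i ≠ j → am i ≠ am j) ∧ (∀ i j, i ≠ j → ap i ≠ ap j) ∧ ∀ θ,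
    γ θ 0 = cfg θ 1 0 0 ∧ γ' θ 0 = cfg θ 0 b a ∧ (∀ t i j, i ≠ j → γ θ t i ≠ γ θ t j) ∧
    (∀ t, HasDerivAt (γ θ) (γ' θ t) t) ∧ (∀ t, HasDerivAt (γ' θ) (NF ms (γ θ t)) t) ∧
    Tendsto (fun t : ℝ => t⁻¹ • γ θ t) atTop (𝓝 ap) ∧
    Tendsto (fun t : ℝ => |t|⁻¹ • γ θ t) atBot (𝓝 am) := by
  obtain ⟨a, ha, ρ, σ, z, w, D, S, hw⟩ := shoot
  obtain ⟨x, y, x1, y1, x0, y0, x10, hxy, dx, dy, dx1, dy1⟩ := S.plane
  have bd : ∀ (u : ℝ) (s : ℝ), s ≠ 0 → u ^ 2 ≤ ρ s ^ 2 →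
      ‖-(1 / ρ s ^ 3 + 1 / 25 / D s ^ 3) * u‖ ≤ 11 / s ^ 2 := fun u s hs hu => by
    have h1 := S.r1 s
    have h2 := S.D1 s
    have h3 := (S.rD h1).2
    have h4 := S.inv_r hs
    have h5 : |u| ≤ ρ s := abs_le_of_sq_le_sq hu (by linarith)
    rw [Real.norm_eq_abs, abs_mul, abs_neg, abs_of_pos (by positivity)]
    have e : (1 / ρ s ^ 3 + 1 / 25 / D s ^ 3) * ρ s = 1 / ρ s ^ 2 + 1 / 25 * (ρ s / D s ^ 3) := by
      field_simp
    have e2 : 11 / s ^ 2 = 11 / 10 * (10 / s ^ 2) := by ring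
    have h6 : 0 ≤ 10 / s ^ 2 := by positivity
    calc _ ≤ (1 / ρ s ^ 3 + 1 / 25 / D s ^ 3) * ρ s := by gcongr
      _ ≤ _ := by rw [e, e2]; linarith
  have bx := fun s hs => bd (x s) s hs (by nlinarith [hxy s, sq_nonneg (y s)])
  have bY := fun s hs => bd (y s) s hs (by nlinarith [hxy s, sq_nonneg (x s)])
  obtain ⟨A, -, hA⟩ := lim (by norm_num) dx dx1 fun s hs => bx s hs.ne'
  obtain ⟨B, -, hB⟩ := lim (by norm_num) dy dy1 fun s hs => bY s hs.ne'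
  obtain ⟨A', hA'⟩ := limBot (by norm_num) dx dx1 bx
  obtain ⟨B', hB'⟩ := limBot (by norm_num) dy dy1 bY
  obtain ⟨L, hL, hZ⟩ := lim (by norm_num) S.dz S.dw S.wb
  rw [tendsto_nhds_unique hL hw] at hZ
  have hZ' : Tendsto (fun t : ℝ => |t|⁻¹ * z t) atBot (𝓝 0) := by
    have := (hZ.comp tendsto_neg_atBot_atTop).neg
    rw [neg_zero] at this
    refine this.congr' ?_
    filter_upwards [eventually_le_atBot 0] with t ht
    simp [abs_of_nonpos ht, S.zo]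
  have lo : ∀ k t : ℝ, t ≠ 0 → k ^ 2 = (t ^ 2)⁻¹ → 1 / 10 ≤ (k * x t) ^ 2 + (k * y t) ^ 2 :=
    fun k t ht hk => by
      have h1 := S.low t
      have h2 : 0 < t ^ 2 := by positivity
      have e : (k * x t) ^ 2 + (k * y t) ^ 2 = ρ t ^ 2 / t ^ 2 := by
        rw [← hxy, div_eq_inv_mul, ← hk]; ring
      rw [e, le_div_iff₀ h2]
      linarith
  have p1 := sq_lim (k := fun t => t⁻¹) hA hB (by
    filter_upwards [eventually_gt_atTop 0] with t ht using lo _ t ht.ne' (by rw [inv_pow]))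
  have p2 := sq_lim (k := fun t => |t|⁻¹) hA' hB' (by
    filter_upwards [eventually_lt_atBot 0] with t ht using lo _ t ht.ne (by rw [inv_pow, sq_abs]))
  refine ⟨a, y1 0, cfg 0 A' B' 0, cfg 0 A B 0, fun θ t => cfg θ (x t) (y t) (z t),
    fun θ t => cfg θ (x1 t) (y1 t) (w t), ha, cfg_ne p2, cfg_ne p1, fun θ => ⟨?_, ?_, fun t => ?_,
    fun t => cfg_deriv θ (dx t) (dy t) (S.dz t), fun t => ?_, cfg_lim θ hA hB hZ,
    cfg_lim θ hA' hB' hZ'⟩⟩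
  · simp only [x0, y0, S.z0]
  · simp only [x10, S.w0]
  · refine cfg_ne ?_
    have := S.r1 t
    rw [hxy]; positivity
  · have h1 := S.r1 t
    have h2 := S.D1 t
    rw [cfg_NF (r := ρ t) (D := D t) (by linarith) (by linarith) (hxy t) (S.D2' t)]
    exact cfg_deriv θ (dx1 t) (dy1 t) (S.dw t)

end Pool.Agent.H.BiH
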